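import Pool.Agent.V5helper28.ER.DRB

set_option autoImplicit false
open Finset

namespace V5helper4.ER
open V5helper19.ER V5helper28.ER

section
variable {H : Type} [Group H] [Fintype H]

/-- the operator -/
noncomputable def KK (h : H → ℝ) : EuclideanSpace ℝ H →ₗ[ℝ] EuclideanSpace ℝ H where
  toFun f := WithLp.toLp 2 (fun x => ∑ d, (∑ y, f y * h (y * d)) * h (x * d))
  map_add' f g := by
    ext x
    simp [Finset.sum_add_distrib, add_mul]
  map_smul' c f := by
    ext x
    simp only [PiLp.smul_apply, smul_eq_mul, RingHom.id_apply, mul_sum]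
    refine Finset.sum_congr rfl fun d _ => ?_
    rw [sum_mul, sum_mul, mul_sum]
    refine Finset.sum_congr rfl fun y _ => ?_
    ring

lemma KK_apply (h : H → ℝ) (f : EuclideanSpace ℝ H) (x : H) :
    KK h f x = ∑ d, (∑ y, f y * h (y * d)) * h (x * d) := rfl

lemma KK_inner (h : H → ℝ) (f g : EuclideanSpace ℝ H) :
    inner ℝ (KK h f) g = ∑ d, (∑ y, f y * h (y * d)) * (∑ x, g x * h (x * d)) := by
  rw [inner_E]
  simp only [KK_apply, Finset.sum_mul]
  rw [Finset.sum_comm]
  refine Finset.sum_congr rfl fun d _ => ?_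
  rw [Finset.sum_comm]
  refine Finset.sum_congr rfl fun y _ => ?_
  rw [Finset.mul_sum]
  refine Finset.sum_congr rfl fun x _ => ?_
  ring

lemma KK_symm (h : H → ℝ) : (KK h).IsSymmetric := by
  intro f g
  rw [KK_inner, real_inner_comm (KK h g) f, KK_inner]
  refine Finset.sum_congr rfl fun d _ => ?_
  ring

end

theorem t_BNP : S_BNP := by
  classical
  intro H _ _ V m hR hW h hh
  by_cases h0 : h = 0
  · subst h0
    simp
  let e : EuclideanSpace ℝ H ≃ₗ[ℝ] (H → ℝ) := WithLp.linearEquiv 2 ℝ (H → ℝ)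
  let V' : Submodule ℝ (EuclideanSpace ℝ H) := V.comap e.toLinearMap
  have hV' : ∀ f ∈ V', KK h f ∈ V' := by
    intro f hf
    show (fun x => ∑ d, (∑ y, f y * h (y * d)) * h (x * d)) ∈ V
    have h1 : (fun x => ∑ d, (∑ y, f y * h (y * d)) * h (x * d)) =
        ∑ d, (∑ y, f y * h (y * d)) • (fun x => h (x * d)) := by
      ext x; simp
    rw [h1]
    exact Submodule.sum_mem _ fun d _ => V.smul_mem _ (hR d _ hh)
  have hsym := (KK_symm h).restrict_invariant hV'
  let h' : V' := ⟨WithLp.toLp 2 h, hh⟩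
  have hh' : h' ≠ 0 := by
    intro hc
    apply h0
    have h1 : (h' : EuclideanSpace ℝ H) = 0 := by rw [hc]; rfl
    ext x
    have h2 := congrArg (fun f : EuclideanSpace ℝ H => f x) h1
    simpa using h2
  obtain ⟨μ, ⟨w, hw0, hw⟩, hμ⟩ := form_le _ hsym h' hh'
  -- the eigenspace
  let W : Submodule ℝ (H → ℝ) :=
    { carrier := {w | w ∈ V ∧ ∀ x, ∑ d, (∑ y, w y * h (y * d)) * h (x * d) = μ * w x}
      add_mem' := by
        rintro a b ⟨ha, ha'⟩ ⟨hb, hb'⟩
        refine ⟨V.add_mem ha hb, fun x => ?_⟩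
        simp only [Pi.add_apply, add_mul, Finset.sum_add_distrib, ha', hb']
        ring
      zero_mem' := ⟨V.zero_mem, fun x => by simp⟩
      smul_mem' := by
        rintro c a ⟨ha, ha'⟩
        refine ⟨V.smul_mem c ha, fun x => ?_⟩
        have h1 : ∀ d, ∑ y, (c • a) y * h (y * d) = c * ∑ y, a y * h (y * d) := by
          intro d
          rw [Finset.mul_sum]
          refine Finset.sum_congr rfl fun y _ => ?_
          simp only [Pi.smul_apply, smul_eq_mul]
          ring
        simp only [h1, mul_assoc, ← Finset.mul_sum, ha', Pi.smul_apply, smul_eq_mul]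
        ring }
  have hWV : W ≤ V := fun a ha => ha.1
  have hW0 : W ≠ ⊥ := by
    rw [Submodule.ne_bot_iff]
    refine ⟨fun x => (w : EuclideanSpace ℝ H) x, ⟨w.2, ?_⟩, ?_⟩
    · intro x
      have h1 := congrArg (fun f : V' => (f : EuclideanSpace ℝ H) x) hw
      simp only at h1
      exact h1
    · intro hc
      apply hw0
      apply Subtype.ext
      ext x
      have h2 := congrFun hc x
      simpa using h2
  have hWR : RI W := by
    rintro g a ⟨ha, ha'⟩
    refine ⟨hR g a ha, fun x => ?_⟩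
    rw [← ha' (x * g)]
    rw [← Equiv.sum_comp (Equiv.mulLeft g)
      (fun d => (∑ y, a (y * g) * h (y * d)) * h (x * d))]
    refine Finset.sum_congr rfl fun d _ => ?_
    have h1 : ∑ y, a (y * g) * h (y * (Equiv.mulLeft g d)) = ∑ y, a y * h (y * d) := by
      rw [← Equiv.sum_comp (Equiv.mulRight g) (fun y => a y * h (y * d))]
      refine Finset.sum_congr rfl fun y _ => ?_
      simp [mul_assoc]
    rw [h1]
    simp [mul_assoc]
  have hm := hW W hWV hW0 hWR
  -- Bessel
  let W' : Submodule ℝ (EuclideanSpace ℝ H) := W.comap e.toLinearMap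
  have hfin : Module.finrank ℝ W' = Module.finrank ℝ W := by
    have h1 : W' = W.map e.symm.toLinearMap := by
      ext f
      simp only [W', Submodule.mem_comap, Submodule.mem_map]
      constructor
      · intro hf
        exact ⟨e f, hf, by simp⟩
      · rintro ⟨y, hy, rfl⟩
        simpa using hy
    rw [h1]
    exact LinearEquiv.finrank_map_eq e.symm W
  let b := stdOrthonormalBasis ℝ W'
  have hb : Orthonormal ℝ (fun j => (b j : EuclideanSpace ℝ H)) := by
    have := b.orthonormal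
    exact this.comp_linearIsometry W'.subtypeₗᵢ
  have hbe : ∀ j, KK h (b j : EuclideanSpace ℝ H) = μ • (b j : EuclideanSpace ℝ H) := by
    intro j
    ext x
    exact (b j).2.2 x
  have hbk : ∀ j, ∑ d, (∑ y, (b j : EuclideanSpace ℝ H) y * h (y * d)) ^ 2 = μ := by
    intro j
    have h1 : inner ℝ (KK h (b j : EuclideanSpace ℝ H)) (b j : EuclideanSpace ℝ H) = μ := by
      rw [hbe, real_inner_smul_left, real_inner_self_eq_norm_sq, hb.1 j]
      ring
    rw [KK_inner] at h1
    rw [← h1]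
    refine Finset.sum_congr rfl fun d _ => ?_
    ring
  let a : H → EuclideanSpace ℝ H := fun d => WithLp.toLp 2 (fun y => h (y * d))
  have ha1 : ∀ d, ‖a d‖ ^ 2 = ∑ x, h x ^ 2 := by
    intro d
    rw [norm_E]
    exact Equiv.sum_comp (Equiv.mulRight d) (fun y => h y ^ 2)
  have hbes : ∀ d, ∑ j, (∑ y, (b j : EuclideanSpace ℝ H) y * h (y * d)) ^ 2 ≤ ∑ x, h x ^ 2 := by
    intro d
    have h1 := hb.sum_inner_products_le (a d) (s := Finset.univ)
    rw [ha1] at h1
    refine le_trans (le_of_eq ?_) h1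
    apply Finset.sum_congr rfl
    intro j _
    rw [inner_E, Real.norm_eq_abs, sq_abs]
  set N := ∑ x, h x ^ 2 with hNdef
  have hN : 0 ≤ N := Finset.sum_nonneg fun x _ => sq_nonneg _
  have hk : (Module.finrank ℝ W : ℝ) * μ ≤ Fintype.card H * N := by
    have h1 : ∑ d : H, ∑ j, (∑ y, (b j : EuclideanSpace ℝ H) y * h (y * d)) ^ 2 ≤ ∑ _d : H, N :=
      Finset.sum_le_sum fun x _ => hbes x
    rw [Finset.sum_comm] at h1
    simp only [hbk] at h1
    rw [Finset.sum_const, Finset.sum_const, Finset.card_univ, Finset.card_univ, Fintype.card_fin,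
      nsmul_eq_mul, nsmul_eq_mul, hfin] at h1
    exact h1
  -- conclusion
  have hform : inner ℝ (((KK h).restrict hV') h') h' = ∑ d, (∑ x, h x * h (x * d)) ^ 2 := by
    show inner ℝ (KK h (WithLp.toLp 2 h)) (WithLp.toLp 2 h : EuclideanSpace ℝ H) = _
    rw [KK_inner]
    refine Finset.sum_congr rfl fun d _ => ?_
    rw [sq]
  have hnorm : ‖h'‖ ^ 2 = ∑ x, h x ^ 2 := by
    show ‖(WithLp.toLp 2 h : EuclideanSpace ℝ H)‖ ^ 2 = _
    rw [norm_E]
  rw [hform, hnorm, ← hNdef] at hμ
  set q := ∑ d, (∑ x, h x * h (x * d)) ^ 2 with hq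
  have hq0 : 0 ≤ q := Finset.sum_nonneg fun x _ => sq_nonneg _
  rw [abs_of_nonneg hq0] at hμ
  have hm' : (m : ℝ) ≤ Module.finrank ℝ W := by exact_mod_cast hm
  have hfp : 0 < Module.finrank ℝ W := by
    rw [Nat.pos_iff_ne_zero]
    intro hc
    exact hW0 (Submodule.finrank_eq_zero.mp hc)
  have hμ0 : 0 ≤ μ := by
    haveI : Nonempty (Fin (Module.finrank ℝ W')) := ⟨⟨0, by rw [hfin]; exact hfp⟩⟩
    obtain ⟨j⟩ := this
    rw [← hbk j]
    exact Finset.sum_nonneg fun x _ => sq_nonneg _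
  rw [abs_of_nonneg hμ0] at hμ
  calc (m : ℝ) * q ≤ Module.finrank ℝ W * (μ * N) :=
        mul_le_mul hm' hμ hq0 (Nat.cast_nonneg _)
    _ = (Module.finrank ℝ W * μ) * N := by ring
    _ ≤ (Fintype.card H * N) * N := mul_le_mul_of_nonneg_right hk hN
    _ = Fintype.card H * N ^ 2 := by ring

end V5helper4.ER
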