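import Pool.Agent.V5helper19.ER.Stm

set_option autoImplicit false
open Finset

namespace V5helper4.ER
open V5helper19.ER

variable {n : ℕ}

/-- the bad points -/
def bad (i : Fin n) (d₀ r : G n) : Finset (Fin n) :=
  univ.filter fun x => x ≠ i ∧ ((r : Equiv.Perm (Fin n)) x = x ∨
    (r : Equiv.Perm (Fin n)) x = (d₀ : Equiv.Perm (Fin n)) x)

/-- the 3-cycle `x → p → q → x` -/
def cyc (x p q : Fin n) : G n :=
  if h : x ≠ q ∧ x ≠ p then ⟨Equiv.swap x q * Equiv.swap x p, by
    rw [Equiv.Perm.mem_alternatingGroup, Equiv.Perm.sign_mul, Equiv.Perm.sign_swap h.1,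
      Equiv.Perm.sign_swap h.2]
    norm_num⟩ else 1

lemma cyc_coe {x p q : Fin n} (h : x ≠ q) (h' : x ≠ p) :
    (cyc x p q : Equiv.Perm (Fin n)) = Equiv.swap x q * Equiv.swap x p := by
  unfold cyc
  rw [dif_pos ⟨h, h'⟩]

lemma cyc_x {x p q : Fin n} (h : x ≠ q) (h' : x ≠ p) (hpq : p ≠ q) :
    (cyc x p q : Equiv.Perm (Fin n)) x = p := by
  rw [cyc_coe h h', Equiv.Perm.mul_apply, Equiv.swap_apply_left,
    Equiv.swap_apply_of_ne_of_ne h'.symm hpq]

lemma cyc_p {x p q : Fin n} (h : x ≠ q) (h' : x ≠ p) :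
    (cyc x p q : Equiv.Perm (Fin n)) p = q := by
  rw [cyc_coe h h', Equiv.Perm.mul_apply, Equiv.swap_apply_right, Equiv.swap_apply_left]

lemma cyc_q {x p q : Fin n} (h : x ≠ q) (h' : x ≠ p) (hpq : p ≠ q) :
    (cyc x p q : Equiv.Perm (Fin n)) q = x := by
  rw [cyc_coe h h', Equiv.Perm.mul_apply, Equiv.swap_apply_of_ne_of_ne h.symm hpq.symm,
    Equiv.swap_apply_right]

lemma cyc_ne {x p q y : Fin n} (h : x ≠ q) (h' : x ≠ p) (h1 : y ≠ x) (h2 : y ≠ p) (h3 : y ≠ q) :
    (cyc x p q : Equiv.Perm (Fin n)) y = y := by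
  rw [cyc_coe h h', Equiv.Perm.mul_apply, Equiv.swap_apply_of_ne_of_ne h1 h2,
    Equiv.swap_apply_of_ne_of_ne h1 h3]

/-- the good triples -/
def Tri (i : Fin n) (d₀ r : G n) : Finset (Fin n × Fin n × Fin n) :=
  univ.filter fun t => t.1 ∈ bad i d₀ r ∧ t.2.1 ≠ t.2.2 ∧ t.2.1 ∉ bad i d₀ r ∧ t.2.1 ≠ i ∧
    t.2.2 ∉ bad i d₀ r ∧ t.2.2 ≠ i ∧
    (r : Equiv.Perm (Fin n)) t.2.1 ≠ t.1 ∧
    (r : Equiv.Perm (Fin n)) t.2.1 ≠ (d₀ : Equiv.Perm (Fin n)) t.1 ∧
    (r : Equiv.Perm (Fin n)) t.2.2 ≠ t.2.1 ∧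
    (r : Equiv.Perm (Fin n)) t.2.2 ≠ (d₀ : Equiv.Perm (Fin n)) t.2.1 ∧
    (r : Equiv.Perm (Fin n)) t.1 ≠ t.2.2 ∧
    (r : Equiv.Perm (Fin n)) t.1 ≠ (d₀ : Equiv.Perm (Fin n)) t.2.2

lemma mem_bad {i : Fin n} {d₀ r : G n} {x : Fin n} :
    x ∈ bad i d₀ r ↔ x ≠ i ∧ ((r : Equiv.Perm (Fin n)) x = x ∨
      (r : Equiv.Perm (Fin n)) x = (d₀ : Equiv.Perm (Fin n)) x) := by
  simp [bad]

lemma mul_coe (r s : G n) (y : Fin n) : ((r * s : G n) : Equiv.Perm (Fin n)) y =
    (r : Equiv.Perm (Fin n)) ((s : Equiv.Perm (Fin n)) y) := rfl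

lemma switch {i k : Fin n} {d₀ r : G n} (hr : r ∈ T i k) {x p q : Fin n}
    (h : (x, p, q) ∈ Tri i d₀ r) :
    r * cyc x p q ∈ T i k ∧ bad i d₀ (r * cyc x p q) = (bad i d₀ r).erase x ∧
      ((r * cyc x p q : G n) : Equiv.Perm (Fin n)) q = (r : Equiv.Perm (Fin n)) x := by
  simp only [Tri, mem_filter, mem_univ, true_and] at h
  obtain ⟨hx, hpq, hp, hpi, hq, hqi, h1, h2, h3, h4, h5, h6⟩ := h
  have hxq : x ≠ q := fun e => hq (e ▸ hx)
  have hxp : x ≠ p := fun e => hp (e ▸ hx)
  have hxi : x ≠ i := (mem_bad.mp hx).1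
  refine ⟨?_, ?_, ?_⟩
  · simp only [T, mem_filter, mem_univ, true_and] at hr ⊢
    rw [mul_coe, cyc_ne hxq hxp hxi.symm hpi.symm hqi.symm, hr]
  · ext y
    rw [mem_erase, mem_bad, mem_bad, mul_coe]
    by_cases hyx : y = x
    · subst hyx
      rw [cyc_x hxq hxp hpq]
      constructor
      · rintro ⟨_, h | h⟩
        · exact absurd h h1
        · exact absurd h h2
      · rintro ⟨h, _⟩
        exact absurd rfl h
    · by_cases hyp : y = p
      · subst hyp
        rw [cyc_p hxq hxp]
        constructor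
        · rintro ⟨_, h | h⟩
          · exact absurd h h3
          · exact absurd h h4
        · rintro ⟨_, h⟩
          exact absurd (mem_bad.mpr h) hp
      · by_cases hyq : y = q
        · subst hyq
          rw [cyc_q hxq hxp hpq]
          constructor
          · rintro ⟨_, h | h⟩
            · exact absurd h h5
            · exact absurd h h6
          · rintro ⟨_, h⟩
            exact absurd (mem_bad.mpr h) hq
        · rw [cyc_ne hxq hxp hyx hyp hyq]
          constructor
          · intro h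
            exact ⟨hyx, h⟩
          · intro h
            exact h.2
  · rw [mul_coe, cyc_q hxq hxp hpq]

/-- there are many good triples -/
lemma tri_card {i : Fin n} {d₀ r : G n} (h0 : (bad i d₀ r).Nonempty)
    (h3 : (bad i d₀ r).card ≤ 3) : (n - 6) * (n - 9) ≤ (Tri i d₀ r).card := by
  classical
  obtain ⟨x, hx⟩ := h0
  let R : Equiv.Perm (Fin n) := r
  let D : Equiv.Perm (Fin n) := d₀
  let X1 : Finset (Fin n) := bad i d₀ r ∪ {i, R.symm x, R.symm (D x)}
  let X2 : Fin n → Finset (Fin n) := fun p =>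
    bad i d₀ r ∪ {i, p, R.symm p, R.symm (D p), R x, D.symm (R x)}
  have hX1 : X1.card ≤ 6 := by
    refine (card_union_le _ _).trans ?_
    have : ({i, R.symm x, R.symm (D x)} : Finset (Fin n)).card ≤ 3 := card_le_three
    omega
  have hX2 : ∀ p, (X2 p).card ≤ 9 := by
    intro p
    refine (card_union_le _ _).trans ?_
    have : ({i, p, R.symm p, R.symm (D p), R x, D.symm (R x)} : Finset (Fin n)).card ≤ 6 :=
      card_le_six
    omega
  let P : Finset (Σ _ : Fin n, Fin n) := (univ \ X1).sigma fun p => univ \ X2 p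
  have hP : (n - 6) * (n - 9) ≤ P.card := by
    rw [card_sigma]
    have h1 : ∀ p ∈ univ \ X1, n - 9 ≤ (univ \ X2 p).card := by
      intro p _
      rw [card_sdiff_of_subset (subset_univ _), card_univ, Fintype.card_fin]
      have := hX2 p
      omega
    refine le_trans ?_ (sum_le_sum h1)
    rw [sum_const, smul_eq_mul, card_sdiff_of_subset (subset_univ _), card_univ, Fintype.card_fin]
    exact Nat.mul_le_mul_right _ (by omega)
  refine hP.trans ?_
  refine card_le_card_of_injOn (fun s => (x, s.1, s.2)) ?_ ?_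
  · rintro ⟨p, q⟩ hpq
    simp only [P, coe_sigma, Set.mem_sigma_iff, mem_coe, mem_sdiff, mem_univ, true_and, X1, X2,
      mem_union, mem_insert, mem_singleton, not_or] at hpq
    obtain ⟨⟨a1, a2, a3, a4⟩, b1, b2, b3, b4, b5, b6, b7⟩ := hpq
    simp only [Tri, coe_filter, mem_univ, true_and, Set.mem_setOf_eq]
    refine ⟨hx, fun e => b3 e.symm, a1, a2, b1, b2, ?_, ?_, ?_, ?_, ?_, ?_⟩
    · intro e
      apply a3
      show p = R.symm x
      rw [Equiv.eq_symm_apply]
      exact e
    · intro e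
      apply a4
      show p = R.symm (D x)
      rw [Equiv.eq_symm_apply]
      exact e
    · intro e
      apply b4
      show q = R.symm p
      rw [Equiv.eq_symm_apply]
      exact e
    · intro e
      apply b5
      show q = R.symm (D p)
      rw [Equiv.eq_symm_apply]
      exact e
    · intro e
      exact b6 e.symm
    · intro e
      apply b7
      show q = D.symm (R x)
      rw [Equiv.eq_symm_apply]
      exact e.symm
  · rintro ⟨p, q⟩ _ ⟨p', q'⟩ _ h
    simp only [Prod.mk.injEq, true_and] at h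
    obtain ⟨rfl, rfl⟩ := h
    rfl

/-- the triples which can lead to `r` -/
def Tri' (d₀ r : G n) : Finset (Fin n × Fin n × Fin n) :=
  univ.filter fun t => (r : Equiv.Perm (Fin n)) t.2.2 = t.1 ∨
    (r : Equiv.Perm (Fin n)) t.2.2 = (d₀ : Equiv.Perm (Fin n)) t.1

lemma tri'_card (d₀ r : G n) : (Tri' d₀ r).card ≤ 2 * (n * n) := by
  classical
  have h1 : Tri' d₀ r ⊆ (univ : Finset (Fin n × Fin n × Bool)).image
      (fun t => (if t.2.2 then (r : Equiv.Perm (Fin n)) t.2.1
        else (d₀ : Equiv.Perm (Fin n)).symm ((r : Equiv.Perm (Fin n)) t.2.1), t.1, t.2.1)) := by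
    rintro ⟨x, p, q⟩ h
    simp only [Tri', mem_filter, mem_univ, true_and] at h
    rw [mem_image]
    rcases h with h | h
    · exact ⟨(p, q, true), mem_univ _, by simp [h]⟩
    · refine ⟨(p, q, false), mem_univ _, ?_⟩
      simp [h]
  refine (card_le_card h1).trans (card_image_le.trans ?_)
  rw [card_univ, Fintype.card_prod, Fintype.card_prod, Fintype.card_fin, Fintype.card_bool]
  exact le_of_eq (by ring)

/-- the number of elements with `b` bad points -/
def NB (i k : Fin n) (d₀ : G n) (b : ℕ) : ℕ :=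
  ((T i k).filter fun r => (bad i d₀ r).card = b).card

lemma step (hn : 100 ≤ n) (i k : Fin n) (d₀ : G n) (b : ℕ) (hb : b ≤ 2) :
    NB i k d₀ (b + 1) ≤ 4 * NB i k d₀ b := by
  classical
  let S := ((T i k).filter fun r => (bad i d₀ r).card = b + 1).sigma fun r => Tri i d₀ r
  let S' := ((T i k).filter fun r => (bad i d₀ r).card = b).sigma fun r => Tri' d₀ r
  have h1 : NB i k d₀ (b + 1) * ((n - 6) * (n - 9)) ≤ S.card := by
    rw [card_sigma]
    have h2 : ∀ r ∈ (T i k).filter fun r => (bad i d₀ r).card = b + 1,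
        (n - 6) * (n - 9) ≤ (Tri i d₀ r).card := by
      intro r hr
      rw [mem_filter] at hr
      exact tri_card (card_pos.mp (by omega)) (by omega)
    refine le_trans ?_ (sum_le_sum h2)
    rw [sum_const, smul_eq_mul]
    rfl
  have h2 : S'.card ≤ NB i k d₀ b * (2 * (n * n)) := by
    rw [card_sigma]
    refine (sum_le_sum fun r _ => tri'_card d₀ r).trans ?_
    rw [sum_const, smul_eq_mul]
    rfl
  have h3 : S.card ≤ S'.card := by
    refine card_le_card_of_injOn (fun s => ⟨s.1 * cyc s.2.1 s.2.2.1 s.2.2.2, s.2⟩) ?_ ?_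
    · rintro ⟨r, x, p, q⟩ hs
      simp only [S, coe_sigma, Set.mem_sigma_iff, mem_coe, mem_filter] at hs
      obtain ⟨⟨hr, hc⟩, ht⟩ := hs
      obtain ⟨a1, a2, a3⟩ := switch hr ht
      have hx : x ∈ bad i d₀ r := by
        simp only [Tri, mem_filter, mem_univ, true_and] at ht
        exact ht.1
      simp only [S', coe_sigma, Set.mem_sigma_iff, mem_coe, mem_filter]
      refine ⟨⟨a1, ?_⟩, ?_⟩
      · rw [a2, card_erase_of_mem hx, hc]
        rfl
      · simp only [Tri', mem_filter, mem_univ, true_and]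
        rw [a3]
        exact (mem_bad.mp hx).2
    · rintro ⟨r, x, p, q⟩ _ ⟨r', x', p', q'⟩ _ h
      simp only [Sigma.mk.injEq, heq_eq_eq, Prod.mk.injEq] at h
      obtain ⟨h, rfl, rfl, rfl⟩ := h
      have : r = r' := mul_right_cancel h
      rw [this]
  have h4 : n * n ≤ 2 * ((n - 6) * (n - 9)) := by
    obtain ⟨c, rfl⟩ : ∃ c, n = c + 100 := ⟨n - 100, by omega⟩
    have e1 : c + 100 - 6 = c + 94 := by omega
    have e2 : c + 100 - 9 = c + 91 := by omega
    rw [e1, e2]
    nlinarith
  have h5 : NB i k d₀ (b + 1) * (n * n) ≤ 4 * NB i k d₀ b * (n * n) := by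
    calc NB i k d₀ (b + 1) * (n * n) ≤ NB i k d₀ (b + 1) * (2 * ((n - 6) * (n - 9))) :=
          Nat.mul_le_mul_left _ h4
      _ = 2 * (NB i k d₀ (b + 1) * ((n - 6) * (n - 9))) := by ring
      _ ≤ 2 * (NB i k d₀ b * (2 * (n * n))) :=
          Nat.mul_le_mul_left _ ((h1.trans h3).trans h2)
      _ = 4 * NB i k d₀ b * (n * n) := by ring
  exact Nat.le_of_mul_le_mul_right h5 (by positivity)

theorem t_CNT (hTR : S_TR) : S_CNT := by
  classical
  intro n hn i k d₀ hik hdk
  obtain ⟨t1, t2, -, -, -⟩ := hTR n (by omega)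
  have hA := t1 i k
  set A := T i k with hAdef
  -- the average number of bad points
  have hcount : ∀ x y : Fin n, x ≠ i → n * (n - 1) * (A.filter fun r : G n =>
      (r : Equiv.Perm (Fin n)) x = y).card ≤ Fintype.card (G n) := by
    intro x y hx
    by_cases hy : y = k
    · have : (A.filter fun r : G n => (r : Equiv.Perm (Fin n)) x = y) = ∅ := by
        rw [filter_eq_empty_iff]
        intro r hr h
        simp only [hAdef, T, mem_filter, mem_univ, true_and] at hr
        rw [hy, ← hr] at h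
        exact hx ((r : Equiv.Perm (Fin n)).injective h)
      rw [this]
      simp
    · have := t2 i k x y hx.symm (fun e => hy e.symm)
      have he : (A.filter fun r : G n => (r : Equiv.Perm (Fin n)) x = y) = T i k ∩ T x y := by
        ext r
        simp [hAdef, T]
      rw [he, this]
  have hbad : n * (n - 1) * ∑ r ∈ A, (bad i d₀ r).card ≤ (n - 1) * (2 * Fintype.card (G n)) := by
    have h1 : ∀ r : G n, (bad i d₀ r).card ≤ ∑ x ∈ univ.erase i,
        ((if (r : Equiv.Perm (Fin n)) x = x then 1 else 0) +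
          (if (r : Equiv.Perm (Fin n)) x = (d₀ : Equiv.Perm (Fin n)) x then 1 else 0)) := by
      intro r
      have : bad i d₀ r = (univ.erase i).filter fun x => ((r : Equiv.Perm (Fin n)) x = x ∨
          (r : Equiv.Perm (Fin n)) x = (d₀ : Equiv.Perm (Fin n)) x) := by
        ext x
        simp [bad]
      rw [this, card_filter]
      refine sum_le_sum fun x _ => ?_
      split_ifs <;> simp_all
    calc n * (n - 1) * ∑ r ∈ A, (bad i d₀ r).card
        ≤ n * (n - 1) * ∑ r ∈ A, ∑ x ∈ univ.erase i,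
        ((if (r : Equiv.Perm (Fin n)) x = x then 1 else 0) +
          (if (r : Equiv.Perm (Fin n)) x = (d₀ : Equiv.Perm (Fin n)) x then 1 else 0)) :=
          Nat.mul_le_mul_left _ (sum_le_sum fun r _ => h1 r)
      _ = ∑ x ∈ univ.erase i, (n * (n - 1) * (A.filter fun r : G n =>
            (r : Equiv.Perm (Fin n)) x = x).card + n * (n - 1) * (A.filter fun r : G n =>
            (r : Equiv.Perm (Fin n)) x = (d₀ : Equiv.Perm (Fin n)) x).card) := by
          rw [sum_comm, mul_sum]
          refine sum_congr rfl fun x _ => ?_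
          rw [sum_add_distrib, card_filter, card_filter, mul_add]
      _ ≤ ∑ x ∈ univ.erase i, (Fintype.card (G n) + Fintype.card (G n)) := by
          refine sum_le_sum fun x hx => ?_
          have hx' : x ≠ i := (mem_erase.mp hx).1
          exact Nat.add_le_add (hcount x _ hx') (hcount x _ hx')
      _ = (n - 1) * (2 * Fintype.card (G n)) := by
          rw [sum_const, card_erase_of_mem (mem_univ _), card_univ, Fintype.card_fin, smul_eq_mul,
            two_mul]
  have hbad2 : ∑ r ∈ A, (bad i d₀ r).card ≤ 2 * A.card := by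
    have h2 : n * (n - 1) * ∑ r ∈ A, (bad i d₀ r).card ≤ n * (n - 1) * (2 * A.card) := by
      refine hbad.trans (le_of_eq ?_)
      rw [← hA]
      ring
    exact Nat.le_of_mul_le_mul_left h2 (Nat.mul_pos (by omega) (by omega))
  -- Markov
  have hM : 4 * (A.filter fun r => ¬ (bad i d₀ r).card ≤ 3).card ≤ 2 * A.card := by
    refine le_trans ?_ hbad2
    calc 4 * (A.filter fun r => ¬ (bad i d₀ r).card ≤ 3).card
        = ∑ r ∈ A.filter (fun r => ¬ (bad i d₀ r).card ≤ 3), 4 := by
          rw [sum_const, smul_eq_mul, mul_comm]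
      _ ≤ ∑ r ∈ A.filter (fun r => ¬ (bad i d₀ r).card ≤ 3), (bad i d₀ r).card := by
          refine sum_le_sum fun r hr => ?_
          have := (mem_filter.mp hr).2
          omega
      _ ≤ ∑ r ∈ A, (bad i d₀ r).card := sum_le_sum_of_subset (filter_subset _ _)
  have hsplit : (A.filter fun r => (bad i d₀ r).card ≤ 3).card +
      (A.filter fun r => ¬ (bad i d₀ r).card ≤ 3).card = A.card :=
    card_filter_add_card_filter_not _
  have hlow : (A.filter fun r => (bad i d₀ r).card ≤ 3).card ≤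
      NB i k d₀ 0 + NB i k d₀ 1 + NB i k d₀ 2 + NB i k d₀ 3 := by
    have h1 : (A.filter fun r => (bad i d₀ r).card ≤ 3) ⊆
        (((A.filter fun r => (bad i d₀ r).card = 0) ∪ (A.filter fun r => (bad i d₀ r).card = 1)) ∪
        (A.filter fun r => (bad i d₀ r).card = 2)) ∪ (A.filter fun r => (bad i d₀ r).card = 3) := by
      intro r hr
      simp only [mem_union, mem_filter] at hr ⊢
      obtain ⟨h1, h2⟩ := hr
      have : (bad i d₀ r).card = 0 ∨ (bad i d₀ r).card = 1 ∨ (bad i d₀ r).card = 2 ∨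
          (bad i d₀ r).card = 3 := by omega
      tauto
    refine (card_le_card h1).trans ?_
    refine (card_union_le _ _).trans (Nat.add_le_add_right ?_ _)
    refine (card_union_le _ _).trans (Nat.add_le_add_right ?_ _)
    exact card_union_le _ _
  have s1 := step hn i k d₀ 0 (by omega)
  have s2 := step hn i k d₀ 1 (by omega)
  have s3 := step hn i k d₀ 2 (by omega)
  have hfin : A.card ≤ 170 * NB i k d₀ 0 := by
    norm_num at s1 s2 s3
    omega
  have hN0 : NB i k d₀ 0 ≤ ((DD i k).filter fun r : G n =>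
      ∀ x, (r : Equiv.Perm (Fin n)) x ≠ (d₀ : Equiv.Perm (Fin n)) x).card := by
    unfold NB
    refine card_le_card ?_
    intro r hr
    rw [mem_filter, card_eq_zero] at hr
    obtain ⟨hr1, hr2⟩ := hr
    simp only [T, mem_filter, mem_univ, true_and] at hr1
    have key : ∀ x, (r : Equiv.Perm (Fin n)) x ≠ x ∧
        (r : Equiv.Perm (Fin n)) x ≠ (d₀ : Equiv.Perm (Fin n)) x := by
      intro x
      by_cases hx : x = i
      · subst hx
        rw [hr1]
        exact ⟨hik.symm, fun e => hdk e.symm⟩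
      · have : x ∉ bad i d₀ r := by rw [hr2]; simp
        rw [mem_bad] at this
        constructor
        · intro e
          exact this ⟨hx, Or.inl e⟩
        · intro e
          exact this ⟨hx, Or.inr e⟩
    simp only [DD, Der, mem_filter, mem_univ, true_and]
    exact ⟨⟨fun x => (key x).1, hr1⟩, fun x => (key x).2⟩
  rw [← hA]
  calc n * A.card ≤ n * (170 * NB i k d₀ 0) := Nat.mul_le_mul_left _ hfin
    _ ≤ n * (170 * ((DD i k).filter fun r : G n =>
      ∀ x, (r : Equiv.Perm (Fin n)) x ≠ (d₀ : Equiv.Perm (Fin n)) x).card) :=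
        Nat.mul_le_mul_left _ (Nat.mul_le_mul_left _ hN0)
    _ = _ := by ring

end V5helper4.ER
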